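import Pool.Agent.Y737.KB.Main

/-!
# One domain and one function on which the sub-mean value inequality fails for all exponents
-/

set_option autoImplicit false

namespace Pool.Agent.Results.MP_8e2100_an.OneDomainAllExponents

open MeasureTheory Set Metric Filter
open scoped ENNReal NNReal Topology
open Pool.Agent.Results.MP_8e2100_an.SubMeanFails

/-- **One domain for all exponents.** For every `n ≥ 2` there are ONE bounded domain `Ω` in `ℂⁿ`,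
complete for its Kobayashi distance, and ONE holomorphic function `f` on `Ω`, `|f| > 1`, such that
for EVERY radius `r > 0` (not only for small ones) there is an exponent `s < 1` with: for every
`p > 0` and every `C > 0` there is `z ∈ Ω` with
`C / V(B(z,r)) ∫_{B(z,r)} |f|^p dV < |f(z)|^(s p)`.
(So even the weaker left hand side `|f(z)|^(s p)` is not bounded by the average of `|f|^p`.)
In particular there are no constants `C, r₀` for any exponent `p > 0` on this domain.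
For `n = 1` the same is proved for all `p < 2`. -/
theorem result (n : ℕ) (hn : 1 ≤ n) :
    ∃ (Ω : Set (Cn n)) (f : Cn n → ℂ), IsOpen Ω ∧ IsConnected Ω ∧ Bornology.IsBounded Ω ∧
      KobComplete Ω ∧ DifferentiableOn ℂ f Ω ∧ (∀ z ∈ Ω, 1 < ‖f z‖) ∧
      (∀ r : ℝ, 0 < r → ∃ s : ℝ, 0 < s ∧ s < 1 ∧ ∀ p : ℝ, 0 < p → (2 ≤ n ∨ p < 2) →
        ∀ C : ℝ, 0 < C → ∃ z ∈ Ω,
          ENNReal.ofReal C / volume (kobBall Ω z r) *
            ∫⁻ w in kobBall Ω z r, ENNReal.ofReal (‖f w‖ ^ p) <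
          ENNReal.ofReal (‖f z‖ ^ (s * p))) ∧
      ∀ p : ℝ, 0 < p → (2 ≤ n ∨ p < 2) →
        ¬ ∃ C > 0, ∃ r0 > 0, ∀ g : Cn n → ℂ, DifferentiableOn ℂ g Ω →
          ∀ z ∈ Ω, ∀ r : ℝ, 0 < r → r < r0 →
            ENNReal.ofReal (‖g z‖ ^ p) ≤ ENNReal.ofReal C / volume (kobBall Ω z r) *
              ∫⁻ w in kobBall Ω z r, ENNReal.ofReal (‖g w‖ ^ p) := by
  obtain ⟨k, rfl⟩ : ∃ k, n = k + 1 := ⟨n - 1, by omega⟩
  have hf : DifferentiableOn ℂ (fun z : Cn (k + 1) => (z 0)⁻¹) (Pool.Agent.Y737.KB.OmI k) :=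
    (differentiable_apply (𝕜 := ℂ) (0 : Fin (k + 1))).differentiableOn.inv
      (fun z hz => norm_pos_iff.1 hz.1)
  have hf1 : ∀ z ∈ Pool.Agent.Y737.KB.OmI k, 1 < ‖(z 0)⁻¹‖ := by
    intro z hz
    rw [norm_inv]
    exact (one_lt_inv₀ hz.1).2 hz.2.1
  have hfail : ∀ r : ℝ, 0 < r → ∃ s : ℝ, 0 < s ∧ s < 1 ∧ ∀ p : ℝ, 0 < p → (2 ≤ k + 1 ∨ p < 2) →
      ∀ C : ℝ, 0 < C → ∃ z ∈ Pool.Agent.Y737.KB.OmI k,
        ENNReal.ofReal C / volume (kobBall (Pool.Agent.Y737.KB.OmI k) z r) *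
          ∫⁻ w in kobBall (Pool.Agent.Y737.KB.OmI k) z r, ENNReal.ofReal (‖(w 0)⁻¹‖ ^ p) <
        ENNReal.ofReal (‖(z 0)⁻¹‖ ^ (s * p)) := by
    intro r hr
    obtain ⟨s, hs0, hs1, h⟩ := Pool.Agent.Y737.KB.main k hr
    refine ⟨s, hs0, hs1, fun p hp hk C hC => h p hp ?_ C hC⟩
    rcases hk with hk | hk
    · exact Or.inl (by omega)
    · exact Or.inr hk
  refine ⟨Pool.Agent.Y737.KB.OmI k, fun z => (z 0)⁻¹, Pool.Agent.Y737.KB.isOpen_OmI,
    ⟨⟨ctr k (1 / 2), Pool.Agent.Y737.KB.ctr_memI (by norm_num) (by norm_num)⟩,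
      Pool.Agent.Y737.KB.isPreconnected_OmI⟩, Pool.Agent.Y737.KB.isBounded_OmI,
    Pool.Agent.Y737.KB.complete_OmI, hf, hf1, hfail, ?_⟩
  rintro p hp hk ⟨C, hC, r0, hr0, H⟩
  obtain ⟨s, hs0, hs1, h⟩ := hfail (r0 / 2) (by positivity)
  obtain ⟨z, hz, hlt⟩ := h p hp hk C hC
  have h1 := H _ hf z hz (r0 / 2) (by positivity) (by linarith)
  have h2 : ENNReal.ofReal (‖(z 0)⁻¹‖ ^ (s * p)) ≤ ENNReal.ofReal (‖(z 0)⁻¹‖ ^ p) := by
    apply ENNReal.ofReal_le_ofReal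
    apply Real.rpow_le_rpow_of_exponent_le (hf1 z hz).le
    nlinarith
  exact absurd (h2.trans h1) (not_le.2 hlt)

end Pool.Agent.Results.MP_8e2100_an.OneDomainAllExponents
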